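import Pool.Agent.X192.EQ.Main

set_option autoImplicit false
set_option linter.unusedSectionVars false

/-!
# Power series
-/

namespace Pool.Agent.X192.EQ

open MvPowerSeries in
/-- power series without constant term lie in the ideal generated by the variables -/
theorem mem_span_X {K : Type} [Field K] {k : ℕ} (g : MvPowerSeries (Fin k) K)
    (hg : constantCoeff g = 0) :
    g ∈ Ideal.span (Set.range (fun i : Fin k => (X i : MvPowerSeries (Fin k) K))) := by
  -- choice of an index for every nonzero exponent
  have hch : ∀ e : Fin k →₀ ℕ, e ≠ 0 → ∃ i, e i ≠ 0 := by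
    intro e he
    by_contra hcon
    push Not at hcon
    exact he (Finsupp.ext hcon)
  let c : (Fin k →₀ ℕ) → Option (Fin k) := fun e =>
    if he : e ≠ 0 then some (hch e he).choose else none
  have hc : ∀ e i, c e = some i → e i ≠ 0 := by
    intro e i h
    by_cases he : e ≠ 0
    · have h1 : c e = some (hch e he).choose := dif_pos he
      rw [h1] at h
      rw [← Option.some.inj h]
      exact (hch e he).choose_spec
    · have h1 : c e = none := dif_neg he
      rw [h1] at h
      exact absurd h (by simp)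
  have hc' : ∀ e, e ≠ 0 → ∃ i, c e = some i := fun e he => ⟨_, dif_pos he⟩
  let q : Fin k → MvPowerSeries (Fin k) K := fun i d =>
    if c (d + Finsupp.single i 1) = some i then coeff (d + Finsupp.single i 1) g else 0
  have hq : ∀ i d, coeff d (q i) =
      if c (d + Finsupp.single i 1) = some i then coeff (d + Finsupp.single i 1) g else 0 :=
    fun i d => rfl
  have hsum : g = ∑ i, X i * q i := by
    ext e
    rw [map_sum]
    have hterm : ∀ i, coeff e (X i * q i) = if c e = some i then coeff e g else 0 := by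
      intro i
      by_cases hi : e i = 0
      · have h1 : c e ≠ some i := fun h => hc e i h hi
        rw [if_neg h1, X, coeff_monomial_mul, if_neg]
        intro hle
        have := hle i
        rw [Finsupp.single_eq_same, hi] at this
        omega
      · have hle : Finsupp.single i 1 ≤ e := by
          rw [Finsupp.single_le_iff]
          omega
        rw [X, coeff_monomial_mul, if_pos hle, one_mul, hq, tsub_add_cancel_of_le hle]
    rw [Finset.sum_congr rfl (fun i _ => hterm i)]
    by_cases he : e = 0
    · subst he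
      have h0 : coeff (0 : Fin k →₀ ℕ) g = 0 := by
        rw [coeff_zero_eq_constantCoeff]; exact hg
      rw [h0]
      simp
    · obtain ⟨i, hi⟩ := hc' e he
      rw [Finset.sum_eq_single i]
      · rw [if_pos hi]
      · intro j _ hj
        rw [if_neg]
        rw [hi]
        intro h
        exact hj (Option.some.inj h).symm
      · intro h
        exact absurd (Finset.mem_univ i) h
  rw [hsum]
  exact Ideal.sum_mem _ (fun i _ => Ideal.mul_mem_right _ _ (Ideal.subset_span ⟨i, rfl⟩))

/-- the augmentation -/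
noncomputable def aug (n : ℕ) : MvPowerSeries (Fin n) ℂ →ₐ[ℂ] ℂ where
  toRingHom := MvPowerSeries.constantCoeff
  commutes' := by
    intro r
    change MvPowerSeries.constantCoeff (algebraMap ℂ (MvPowerSeries (Fin n) ℂ) r) = r
    rw [MvPowerSeries.algebraMap_apply]
    simp

theorem hasSubst (n : ℕ) (M : Matrix (Fin n) (Fin n) ℂ) :
    MvPowerSeries.HasSubst (act M (fun j => (MvPowerSeries.X j : MvPowerSeries (Fin n) ℂ))) := by
  refine MvPowerSeries.hasSubst_of_constantCoeff_zero fun i => ?_
  change aug n (act M _ i) = 0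
  rw [map_act]
  refine Finset.sum_eq_zero fun j _ => ?_
  have : aug n (MvPowerSeries.X j) = 0 := MvPowerSeries.constantCoeff_X j
  change M i j • aug n (MvPowerSeries.X j) = 0
  rw [this, smul_zero]

/-- the linear substitution -/
noncomputable def sub (n : ℕ) (M : Matrix (Fin n) (Fin n) ℂ) :
    MvPowerSeries (Fin n) ℂ →ₐ[ℂ] MvPowerSeries (Fin n) ℂ :=
  MvPowerSeries.substAlgHom (hasSubst n M)

theorem sub_X (n : ℕ) (M : Matrix (Fin n) (Fin n) ℂ) (i : Fin n) :
    sub n M (MvPowerSeries.X i) = act M (fun j => (MvPowerSeries.X j)) i :=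
  MvPowerSeries.substAlgHom_X _ _

theorem sub_coe (n : ℕ) (M : Matrix (Fin n) (Fin n) ℂ) (p : MvPolynomial (Fin n) ℂ) :
    sub n M (p : MvPowerSeries (Fin n) ℂ) = 
      ((MvPolynomial.aeval (fun j : Fin n => ∑ k : Fin n, M j k •
        (MvPolynomial.X k : MvPolynomial (Fin n) ℂ)) p : MvPolynomial (Fin n) ℂ) :
        MvPowerSeries (Fin n) ℂ) := by
  unfold sub
  rw [MvPowerSeries.substAlgHom_coe]
  have h : ∀ q : MvPolynomial (Fin n) ℂ, (q : MvPowerSeries (Fin n) ℂ) =
      MvPolynomial.coeToMvPowerSeries.algHom ℂ q := by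
    intro q
    rw [MvPolynomial.coeToMvPowerSeries.algHom_apply]
    simp
  rw [h, ← AlgHom.comp_apply, MvPolynomial.comp_aeval]
  congr 2
  funext j
  simp [act]

theorem sub_coe_sub_mem (n : ℕ) (M : Matrix (Fin n) (Fin n) ℂ) (p : MvPolynomial (Fin n) ℂ) :
    sub n M (p : MvPowerSeries (Fin n) ℂ) - p ∈ 
      Ideal.span (Set.range (act (M - 1) (fun j => (MvPowerSeries.X j : MvPowerSeries (Fin n) ℂ)))) := by
  set I := Ideal.span (Set.range (act (M - 1) (fun j => (MvPowerSeries.X j : MvPowerSeries (Fin n) ℂ))))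
    with hI
  rw [← Ideal.Quotient.eq]
  let c : MvPolynomial (Fin n) ℂ →ₐ[ℂ] MvPowerSeries (Fin n) ℂ :=
    MvPolynomial.coeToMvPowerSeries.algHom ℂ
  have h : ∀ q : MvPolynomial (Fin n) ℂ, (q : MvPowerSeries (Fin n) ℂ) = c q := by
    intro q
    simp only [c]
    rw [MvPolynomial.coeToMvPowerSeries.algHom_apply]
    simp
  have h2 : ((Ideal.Quotient.mkₐ ℂ I).comp (sub n M)).comp c = (Ideal.Quotient.mkₐ ℂ I).comp c := by
    apply MvPolynomial.algHom_ext
    intro i
    rw [AlgHom.comp_apply, AlgHom.comp_apply, AlgHom.comp_apply, ← h, MvPolynomial.coe_X, sub_X]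
    change Ideal.Quotient.mk I _ = Ideal.Quotient.mk I _
    rw [Ideal.Quotient.eq, hI]
    refine Ideal.subset_span ⟨i, ?_⟩
    rw [act_sub, act_one]
    rfl
  rw [h]
  exact DFunLike.congr_fun h2 p

theorem main (n : ℕ) (M : Matrix (Fin n) (Fin n) ℂ) (d : ℕ) (hd : 0 < d) (hM : M ^ d = 1)
    (f : Fin n → MvPolynomial (Fin n) ℂ)
    (hf : ∀ i : Fin n,
      MvPolynomial.aeval
          (fun j : Fin n => ∑ k : Fin n, M j k • (MvPolynomial.X k : MvPolynomial (Fin n) ℂ))
          (f i) = ∑ j : Fin n, M i j • f j)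
    (hf0 : ∀ i : Fin n, MvPolynomial.constantCoeff (f i) = 0)
    (hfin : Module.Finite ℂ (MvPowerSeries (Fin n) ℂ ⧸
      Ideal.span (Set.range (fun i : Fin n => (f i : MvPowerSeries (Fin n) ℂ)))))
    (T : (MvPowerSeries (Fin n) ℂ ⧸
          Ideal.span (Set.range (fun i : Fin n => (f i : MvPowerSeries (Fin n) ℂ))))
        →ₐ[ℂ] (MvPowerSeries (Fin n) ℂ ⧸
          Ideal.span (Set.range (fun i : Fin n => (f i : MvPowerSeries (Fin n) ℂ)))))
    (hT : ∀ i : Fin n,
        T (Ideal.Quotient.mk
            (Ideal.span (Set.range (fun i : Fin n => (f i : MvPowerSeries (Fin n) ℂ))))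
            (MvPowerSeries.X i))
          = Ideal.Quotient.mk
            (Ideal.span (Set.range (fun i : Fin n => (f i : MvPowerSeries (Fin n) ℂ))))
            (∑ j : Fin n, M i j • (MvPowerSeries.X j : MvPowerSeries (Fin n) ℂ))) :
    LinearMap.trace ℂ
          (MvPowerSeries (Fin n) ℂ ⧸
            Ideal.span (Set.range (fun i : Fin n => (f i : MvPowerSeries (Fin n) ℂ))))
          T.toLinearMap
        = ((Module.finrank ℂ
            (MvPowerSeries (Fin n) ℂ ⧸
              Ideal.span (Set.range (fun i : Fin n => (f i : MvPowerSeries (Fin n) ℂ)) ∪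
                Set.range (fun i : Fin n =>
                  ∑ j : Fin n, (M - 1) i j • (MvPowerSeries.X j : MvPowerSeries (Fin n) ℂ)))))
            : ℂ) := by
  obtain ⟨Q, N, hQN, hMQ, hQQ, hQM⟩ := exists_proj M d hd hM
  let x : Fin n → MvPowerSeries (Fin n) ℂ := fun i => MvPowerSeries.X i
  let F : Fin n → MvPowerSeries (Fin n) ℂ := fun i => (f i : MvPowerSeries (Fin n) ℂ)
  have hσf : ∀ i, sub n M (F i) = act M F i := by
    intro i
    simp only [F]
    rw [sub_coe, hf]
    have h : ∀ q : MvPolynomial (Fin n) ℂ, (q : MvPowerSeries (Fin n) ℂ) =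
        MvPolynomial.coeToMvPowerSeries.algHom ℂ q := by
      intro q
      rw [MvPolynomial.coeToMvPowerSeries.algHom_apply]
      simp
    simp only [act, h, map_sum, map_smul]
  have hA : ∀ i, act Q F i ∈ Ideal.span (Set.range (act Q x)) := by
    intro i
    have h0 : act Q F = act N (act (M - 1) F) := by rw [hQN, act_mul]
    rw [h0]
    refine act_mem _ _ (Ideal.span (Set.range (act Q x))) (fun j => ?_) i
    have h1 : act (M - 1) F j = sub n M (F j) - F j := by
      rw [act_sub, act_one, hσf]
      rfl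
    rw [h1]
    have h2 := sub_coe_sub_mem n M (f j)
    have h3 : Ideal.span (Set.range (act (M - 1)
        (fun j => (MvPowerSeries.X j : MvPowerSeries (Fin n) ℂ)))) ≤
        Ideal.span (Set.range (act Q x)) := by
      rw [Ideal.span_le]
      rintro _ ⟨k, rfl⟩
      have h4 : act (M - 1) (fun j => (MvPowerSeries.X j : MvPowerSeries (Fin n) ℂ)) =
          act (M - 1) (act Q x) := by
        rw [← act_mul, hMQ]
      rw [h4]
      exact act_mem _ _ (Ideal.span (Set.range (act Q x)))
        (fun j => Ideal.subset_span ⟨j, rfl⟩) k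
    exact h3 h2
  have hA' : ∀ i, ∃ c : Fin n → MvPowerSeries (Fin n) ℂ, ∑ j, c j * act Q x j = act Q F i := by
    intro i
    exact Ideal.mem_span_range_iff_exists_fun.1 (hA i)
  choose A hA'' using hA'
  let D : Dat ℂ (MvPowerSeries (Fin n) ℂ) n :=
    { x := x
      ε := aug n
      hεx := fun i => MvPowerSeries.constantCoeff_X i
      hε := fun r hr => mem_span_X r hr
      σ := sub n M
      M := M
      Q := Q
      N := N
      hσ := fun i => sub_X n M i
      hQN := hQN
      hMQ := hMQ
      hQQ := hQQ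
      hQM := hQM
      f := F
      hf := hσf
      hf0 := by
        intro i
        change MvPowerSeries.constantCoeff (f i : MvPowerSeries (Fin n) ℂ) = 0
        rw [← MvPowerSeries.coeff_zero_eq_constantCoeff_apply, MvPolynomial.coeff_coe]
        exact hf0 i
      A := Matrix.of A
      hA := fun i => (hA'' i).symm }
  have hfin' : Module.Finite ℂ (MvPowerSeries (Fin n) ℂ ⧸ D.If) := hfin
  have key := D.trace_eq (hasReg_mvPowerSeries ℂ n) T hT
  have hI : Ideal.span (Set.range (fun i : Fin n => (f i : MvPowerSeries (Fin n) ℂ)) ∪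
                Set.range (fun i : Fin n =>
                  ∑ j : Fin n, (M - 1) i j • (MvPowerSeries.X j : MvPowerSeries (Fin n) ℂ))) =
      D.Iz := by
    rw [Ideal.span_union]
    unfold Dat.Iz
    rw [← D.span_w]
    rfl
  rw [hI]
  exact key

end Pool.Agent.X192.EQ
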