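import Mathlib

set_option autoImplicit false

/-!
# Trace of an algebra endomorphism and the ideal generated by `T b - b`

`O` a domain, `B` an `O`-algebra, finite free over `O`, `T` an algebra endomorphism of `B`, `J` the
ideal generated by all `T b - b`.  The functional `a ↦ Tr (b ↦ a T b)` vanishes on `J`.  If `J` is
generated, up to a nonzero constant `d` of `O`, by an idempotent, then `Tr T` is the rank of
`B ⧸ J`.
-/

namespace Pool.Agent.X192.EQ

open Module

variable {O B : Type*} [CommRing O] [CommRing B] [Algebra O B]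

theorem trace_mul_comm_aux (T : B →ₐ[O] B) (a b : B) :
    LinearMap.trace O B (LinearMap.mulLeft O (a * b) ∘ₗ T.toLinearMap) =
      LinearMap.trace O B (LinearMap.mulLeft O (b * T a) ∘ₗ T.toLinearMap) := by
  have h1 : LinearMap.mulLeft O (a * b) ∘ₗ T.toLinearMap =
      LinearMap.mulLeft O a * (LinearMap.mulLeft O b ∘ₗ T.toLinearMap) := by
    ext x
    simp
  have h2 : LinearMap.mulLeft O (b * T a) ∘ₗ T.toLinearMap =
      (LinearMap.mulLeft O b ∘ₗ T.toLinearMap) * LinearMap.mulLeft O a := by
    ext x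
    simp
  rw [h1, h2, LinearMap.trace_mul_comm]

theorem trace_mul_eq_zero (T : B →ₐ[O] B) (J : Ideal B)
    (hJ : J ≤ Ideal.span (Set.range fun b : B => T b - b)) (j : B) (hj : j ∈ J) :
    LinearMap.trace O B (LinearMap.mulLeft O j ∘ₗ T.toLinearMap) = 0 := by
  let τ : B →ₗ[O] O := LinearMap.trace O B ∘ₗ
    { toFun := fun a => LinearMap.mulLeft O a ∘ₗ T.toLinearMap
      map_add' := by intro a b; ext x; simp [add_mul]
      map_smul' := by intro a b; ext x; simp }
  have hτ : ∀ a, τ a = LinearMap.trace O B (LinearMap.mulLeft O a ∘ₗ T.toLinearMap) := fun a => rfl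
  have key : ∀ j ∈ Ideal.span (Set.range fun b : B => T b - b), ∀ c : B, τ (c * j) = 0 := by
    intro j hj
    induction hj using Submodule.span_induction with
    | mem x hx => 
      obtain ⟨b, rfl⟩ := hx
      intro c
      simp only [mul_sub, map_sub]
      rw [sub_eq_zero, hτ, hτ, mul_comm c b]
      exact (trace_mul_comm_aux T b c).symm
    | zero => intro c; simp
    | add x y hx hy h1 h2 => intro c; rw [mul_add, map_add, h1, h2, add_zero]
    | smul a x hx h1 => intro c; rw [smul_eq_mul, ← mul_assoc]; exact h1 _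
  rw [← hτ]
  simpa using key j (hJ hj) 1

theorem trace_eq_finrank [IsDomain O] [Module.Free O B] [Module.Finite O B] (T : B →ₐ[O] B)
    (J : Ideal B) [Module.Free O (B ⧸ J)] 
    (h1 : ∀ b, T b - b ∈ J) (h2 : J ≤ Ideal.span (Set.range fun b : B => T b - b))
    (d : O) (hd : d ≠ 0) (j : B) (hj : j ∈ J) (hjd : ∀ a ∈ J, j * a = d • a) :
    LinearMap.trace O B T.toLinearMap = (finrank O (B ⧸ J) : O) := by
  have hfin : Module.Finite O (B ⧸ J) := inferInstance
  -- multiplication by `d - j` kills `J`
  let m : B →ₗ[O] B := LinearMap.mulLeft O (algebraMap O B d - j)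
  have hmJ : ∀ a ∈ J, m a = 0 := by
    intro a ha
    simp only [m, LinearMap.mulLeft_apply, sub_mul, hjd a ha, Algebra.smul_def, sub_self]
  have e1 : LinearMap.mulLeft O j ∘ₗ T.toLinearMap + m ∘ₗ T.toLinearMap = d • T.toLinearMap := by
    ext x
    simp [m, sub_mul, Algebra.smul_def]
  have e2 : m ∘ₗ T.toLinearMap = m := by
    ext x
    have := hmJ _ (h1 x)
    rw [map_sub, sub_eq_zero] at this
    exact this
  let q : B →ₗ[O] (B ⧸ J) := (Ideal.Quotient.mkₐ O J).toLinearMap
  let φ : (B ⧸ J) →ₗ[O] B := (Submodule.liftQ J (LinearMap.mulLeft B (algebraMap O B d - j)) (by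
    intro a ha
    exact hmJ a ha)).restrictScalars O
  have hq : ∀ x, q x = Ideal.Quotient.mk J x := fun x => rfl
  have hφ : ∀ x, φ (Ideal.Quotient.mk J x) = (algebraMap O B d - j) * x := fun x => rfl
  have e3 : φ ∘ₗ q = m := by
    ext x
    rw [LinearMap.comp_apply, hq, hφ]
    rfl
  have e4 : q ∘ₗ φ = d • LinearMap.id := by
    apply LinearMap.ext
    intro x
    obtain ⟨x, rfl⟩ := Ideal.Quotient.mk_surjective x
    rw [LinearMap.comp_apply, hφ, hq, LinearMap.smul_apply, LinearMap.id_apply, sub_mul, map_sub,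
      Ideal.Quotient.eq_zero_iff_mem.2 (J.mul_mem_right x hj), sub_zero, ← Algebra.smul_def]
    rfl
  have e5 : LinearMap.trace O B m = d * (finrank O (B ⧸ J) : O) := by
    rw [← e3, LinearMap.trace_comp_comm', e4, map_smul, LinearMap.trace_id, smul_eq_mul]
  have e6 := congrArg (LinearMap.trace O B) e1
  rw [map_add, trace_mul_eq_zero T J h2 j hj, e2, e5, map_smul, smul_eq_mul, zero_add] at e6
  exact (mul_left_cancel₀ hd e6).symm

end Pool.Agent.X192.EQ
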