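import Mathlib

set_option autoImplicit false

/-!
# Reduction of free modules modulo an element
-/

namespace Pool.Agent.X192.EQ

open Module

variable {O K M N : Type*} [CommRing O] [CommRing K] [AddCommGroup M] [Module O M]
  [AddCommGroup N] [Module K N] {φ : O →+* K}

/-- the basis of the reduction -/
noncomputable def redBasis {ι : Type*} [Fintype ι] (hφ : Function.Surjective φ) (s : O)
    (hs : φ s = 0) (q : M →ₛₗ[φ] N) (hq : Function.Surjective q)
    (hker : ∀ x, q x = 0 → ∃ y, x = s • y) (b : Basis ι O M) : Basis ι K N :=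
  Basis.mk (v := fun i => q (b i)) (by
    rw [Fintype.linearIndependent_iff]
    intro g hg i
    choose g' hg' using fun i => hφ (g i)
    have h1 : q (∑ i, g' i • b i) = 0 := by
      rw [map_sum, ← hg]
      refine Finset.sum_congr rfl fun i _ => ?_
      rw [LinearMap.map_smulₛₗ, hg']
    obtain ⟨y, hy⟩ := hker _ h1
    have h2 : b.repr (∑ i, g' i • b i) i = g' i := by
      rw [← Basis.equivFun_apply, ← Basis.equivFun_symm_apply, LinearEquiv.apply_symm_apply]
    rw [← hg', ← h2, hy]
    simp [hs])
    (by
      rintro x -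
      obtain ⟨y, rfl⟩ := hq x
      rw [← b.sum_repr y, map_sum]
      refine Submodule.sum_mem _ fun i _ => ?_
      rw [LinearMap.map_smulₛₗ]
      exact Submodule.smul_mem _ _ (Submodule.subset_span ⟨i, rfl⟩))

theorem redBasis_apply {ι : Type*} [Fintype ι] (hφ : Function.Surjective φ) (s : O)
    (hs : φ s = 0) (q : M →ₛₗ[φ] N) (hq : Function.Surjective q)
    (hker : ∀ x, q x = 0 → ∃ y, x = s • y) (b : Basis ι O M) (i : ι) :
    redBasis hφ s hs q hq hker b i = q (b i) := by
  unfold redBasis
  rw [Basis.mk_apply]

theorem finrank_red [Nontrivial O] [Nontrivial K] [StrongRankCondition O] [StrongRankCondition K]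
    [Module.Free O M] [Module.Finite O M] (hφ : Function.Surjective φ) (s : O)
    (hs : φ s = 0) (q : M →ₛₗ[φ] N) (hq : Function.Surjective q)
    (hker : ∀ x, q x = 0 → ∃ y, x = s • y) : finrank K N = finrank O M := by
  have b := Module.Free.chooseBasis O M
  rw [Module.finrank_eq_card_basis b, Module.finrank_eq_card_basis (redBasis hφ s hs q hq hker b)]

theorem trace_red [Module.Free O M] [Module.Finite O M] (hφ : Function.Surjective φ) (s : O)
    (hs : φ s = 0) (q : M →ₛₗ[φ] N) (hq : Function.Surjective q)
    (hker : ∀ x, q x = 0 → ∃ y, x = s • y) (T : M →ₗ[O] M) (T' : N →ₗ[K] N)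
    (hT : ∀ x, q (T x) = T' (q x)) : LinearMap.trace K N T' = φ (LinearMap.trace O M T) := by
  classical
  let b := Module.Free.chooseBasis O M
  have b' := redBasis hφ s hs q hq hker b
  rw [LinearMap.trace_eq_matrix_trace O b, LinearMap.trace_eq_matrix_trace K
    (redBasis hφ s hs q hq hker b), Matrix.trace, Matrix.trace, map_sum]
  refine Finset.sum_congr rfl fun i _ => ?_
  rw [Matrix.diag_apply, Matrix.diag_apply, LinearMap.toMatrix_apply, LinearMap.toMatrix_apply,
    redBasis_apply, ← hT]
  have h : ∀ x, (redBasis hφ s hs q hq hker b).repr (q x) i = φ (b.repr x i) := by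
    intro x
    conv_lhs => rw [← b.sum_repr x, map_sum, map_sum]
    rw [Finsupp.finsetSum_apply]
    have : ∀ j, (redBasis hφ s hs q hq hker b).repr (q (b.repr x j • b j)) i =
        if j = i then φ (b.repr x j) else 0 := by
      intro j
      rw [LinearMap.map_smulₛₗ, map_smul, ← redBasis_apply hφ s hs q hq hker b j, Basis.repr_self,
        Finsupp.smul_apply, Finsupp.single_apply]
      split_ifs <;> simp
    simp only [this]
    simp
  exact h _

end Pool.Agent.X192.EQ
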