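import Pool.Agent.X192.EQ.Gen

set_option autoImplicit false
set_option linter.unusedSectionVars false

/-!
# The trace on the deformed algebra
-/

namespace Pool.Agent.X192.EQ

open Module PowerSeries IsLocalRing

namespace Dat

variable {K R : Type} [Field K] [CommRing R] [Algebra K R] {n : ℕ} (D : Dat K R n)
  [IsLocalRing R] [IsNoetherianRing R] [Module.Finite K (R ⧸ D.If)]

theorem finite_B : Module.Finite (PowerSeries K) (PowerSeries R ⧸ D.IF) := by
  classical
  obtain ⟨m, v, -, hv⟩ := D.exists_gen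
  exact ⟨⟨Finset.univ.image v, by simpa using hv⟩⟩

theorem Pol_eq_top : D.Pol = ⊤ := by
  obtain ⟨m, v, hv1, hv⟩ := D.exists_gen
  rw [eq_top_iff]
  rintro b -
  have hb : b ∈ Submodule.span (PowerSeries K) (Set.range v) := by rw [hv]; trivial
  have : Submodule.span (PowerSeries K) (Set.range v) ≤ D.Pol.toSubmodule := by
    rw [Submodule.span_le]
    rintro _ ⟨i, rfl⟩
    exact hv1 i
  exact this hb

theorem free_B (hreg : HasReg R n) : Module.Free (PowerSeries K) (PowerSeries R ⧸ D.IF) := by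
  have := D.finite_B
  refine free_powerSeries fun x hx => ?_
  obtain ⟨x, rfl⟩ := Ideal.Quotient.mk_surjective x
  rw [X_smul_mk, Ideal.Quotient.eq_zero_iff_mem] at hx
  rw [Ideal.Quotient.eq_zero_iff_mem]
  exact D.X_mul_mem_IF hreg x hx

/-- the ideal of the moving coordinates in the deformed algebra -/
noncomputable def J : Ideal (PowerSeries R ⧸ D.IF) :=
  D.Jz.map (Ideal.Quotient.mkₐ (PowerSeries K) D.IF)

theorem mem_J (h : PowerSeries R) : Ideal.Quotient.mk D.IF h ∈ D.J ↔ h ∈ D.Jz := by
  unfold J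
  constructor
  · intro hh
    have hh' : h ∈ (D.Jz.map (Ideal.Quotient.mk D.IF)).comap (Ideal.Quotient.mk D.IF) := hh
    rw [Ideal.comap_map_of_surjective' _ Ideal.Quotient.mk_surjective, Ideal.mk_ker,
      sup_eq_left.2 D.IF_le_Jz] at hh'
    exact hh'
  · intro hh
    exact Ideal.mem_map_of_mem _ hh

theorem TB_sub_mem (b : PowerSeries R ⧸ D.IF) : D.TB b - b ∈ D.J := by
  have hb : b ∈ D.Pol := by rw [D.Pol_eq_top]; trivial
  unfold Pol at hb
  induction hb using Algebra.adjoin_induction with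
  | mem y hy => 
    obtain ⟨i, rfl⟩ := hy
    simp only
    rw [TB_mk, ← map_sub, mem_J, σS_C, ← map_sub]
    have : D.σ (D.x i) - D.x i = D.w i := by
      rw [D.hσ]
      unfold w
      rw [act_sub, act_one]
      rfl
    rw [this]
    refine Ideal.mem_map_of_mem _ (Ideal.mem_sup_right ?_)
    rw [← D.span_w]
    exact Ideal.subset_span ⟨i, rfl⟩
  | algebraMap r => rw [AlgHom.commutes, sub_self]; exact Ideal.zero_mem _
  | add a a' _ _ h h' =>
    have := Ideal.add_mem _ h h'
    rw [map_add]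
    convert! this using 1
    ring
  | mul a a' _ _ h h' =>
    rw [map_mul]
    have : D.TB a * D.TB a' - a * a' = D.TB a * (D.TB a' - a') + a' * (D.TB a - a) := by ring
    rw [this]
    exact Ideal.add_mem _ (Ideal.mul_mem_left _ _ h') (Ideal.mul_mem_left _ _ h)

theorem J_le : D.J ≤ Ideal.span (Set.range fun b => D.TB b - b) := by
  unfold J
  rw [Ideal.map_le_iff_le_comap, D.Jz_eq]
  refine sup_le ?_ ?_
  · intro h hh
    rw [Ideal.mem_comap]
    have : Ideal.Quotient.mkₐ (PowerSeries K) D.IF h = 0 := Ideal.Quotient.eq_zero_iff_mem.2 hh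
    rw [this]
    exact Ideal.zero_mem _
  · rw [Ideal.span_le]
    rintro _ ⟨i, rfl⟩
    rw [SetLike.mem_coe, Ideal.mem_comap]
    simp only
    rw [D.z_eq, C_act, map_sum]
    refine Ideal.sum_mem _ fun j _ => ?_
    rw [map_mul]
    refine Ideal.mul_mem_left _ _ (Ideal.subset_span ⟨Ideal.Quotient.mk D.IF (C (D.x j)), ?_⟩)
    simp only
    rw [TB_mk, ← map_sub, σS_C, ← map_sub]
    have : D.σ (D.x j) - D.x j = D.w j := by
      rw [D.hσ]
      unfold w
      rw [act_sub, act_one]
      rfl
    rw [this]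
    rfl

end Dat

end Pool.Agent.X192.EQ
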