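import Mathlib

set_option autoImplicit false

/-!
# Finiteness over `K⟦X⟧`
-/

namespace Pool.Agent.X192.EQ

open Module

variable {O : Type*} [CommRing O]

theorem mem_span_pow_smul_top {M : Type*} [AddCommGroup M] [Module O M] (s : O) (n : ℕ) (x : M) :
    x ∈ ((Ideal.span {s}) ^ n • (⊤ : Submodule O M)) ↔ ∃ y, x = s ^ n • y := by
  rw [Ideal.span_singleton_pow, Submodule.ideal_span_singleton_smul,
    Submodule.mem_smul_pointwise_iff_exists]
  constructor
  · rintro ⟨y, -, rfl⟩
    exact ⟨y, rfl⟩
  · rintro ⟨y, rfl⟩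
    exact ⟨y, trivial, rfl⟩

theorem isPrecomplete_pi (s : O) [h : IsPrecomplete (Ideal.span {s}) O] (ι : Type*) :
    IsPrecomplete (Ideal.span {s}) (ι → O) := by
  constructor
  intro f hf
  have h1 : ∀ i, ∃ L : O, ∀ n, f n i ≡ L [SMOD ((Ideal.span {s}) ^ n • (⊤ : Submodule O O))] := by
    intro i
    apply h.prec'
    intro m n hmn
    have := hf hmn
    rw [SModEq.sub_mem, mem_span_pow_smul_top] at this ⊢
    obtain ⟨y, hy⟩ := this
    exact ⟨y i, congrFun hy i⟩
  choose L hL using h1
  refine ⟨L, fun n => ?_⟩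
  rw [SModEq.sub_mem, mem_span_pow_smul_top]
  have h2 : ∀ i, ∃ y, f n i - L i = s ^ n • y := by
    intro i
    have := hL i n
    rwa [SModEq.sub_mem, mem_span_pow_smul_top] at this
  choose y hy using h2
  exact ⟨y, funext hy⟩

theorem span_eq_top_of_red {K M N : Type*} [CommRing K] [AddCommGroup M] [Module O M]
    [AddCommGroup N] [Module K N] {φ : O →+* K} (hφ : Function.Surjective φ) (s : O)
    [IsPrecomplete (Ideal.span {s}) O] [IsHausdorff (Ideal.span {s}) M]
    (q : M →ₛₗ[φ] N) (hker : ∀ x, q x = 0 → ∃ y, x = s • y) {ι : Type*} [Fintype ι]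
    (v : ι → M) (hv : Submodule.span K (Set.range fun i => q (v i)) = ⊤) :
    Submodule.span O (Set.range v) = ⊤ := by
  have hpre := isPrecomplete_pi s ι
  let f : (ι → O) →ₗ[O] M := Fintype.linearCombination O v
  have hsurj : Function.Surjective f := by
    refine surjective_of_mkQ_comp_surjective (I := Ideal.span {s}) ?_
    intro y
    obtain ⟨y, rfl⟩ := Submodule.Quotient.mk_surjective _ y
    have h1 : q y ∈ Submodule.span K (Set.range fun i => q (v i)) := by rw [hv]; trivial
    rw [Submodule.mem_span_range_iff_exists_fun] at h1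
    obtain ⟨c, hc⟩ := h1
    choose c' hc' using fun i => hφ (c i)
    refine ⟨c', ?_⟩
    rw [LinearMap.comp_apply, Submodule.mkQ_apply, Submodule.Quotient.eq]
    have h2 : q (f c' - y) = 0 := by
      rw [map_sub, ← hc, sub_eq_zero]
      simp only [f, Fintype.linearCombination_apply, map_sum]
      refine Finset.sum_congr rfl fun i _ => ?_
      rw [LinearMap.map_smulₛₗ, hc']
    obtain ⟨z, hz⟩ := hker _ h2
    have := (mem_span_pow_smul_top s 1 (f c' - y)).2 ⟨z, by rw [pow_one]; exact hz⟩
    rwa [pow_one] at this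
  rw [← Fintype.range_linearCombination]
  exact LinearMap.range_eq_top.2 hsurj

/-- torsion-free modules over `K⟦X⟧` -/
theorem free_powerSeries {K : Type*} [Field K] {M : Type*} [AddCommGroup M]
    [Module (PowerSeries K) M] [Module.Finite (PowerSeries K) M]
    (h : ∀ x : M, (PowerSeries.X : PowerSeries K) • x = 0 → x = 0) :
    Module.Free (PowerSeries K) M := by
  have hpow : ∀ (n : ℕ) (x : M), (PowerSeries.X : PowerSeries K) ^ n • x = 0 → x = 0 := by
    intro n
    induction n with
    | zero => intro x hx; simpa using hx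
    | succ n ih =>
      intro x hx
      rw [pow_succ', mul_smul] at hx
      exact ih x (h _ hx)
  have htf : Module.IsTorsionFree (PowerSeries K) M := by
    rw [Module.isTorsionFree_iff_smul_eq_zero]
    intro r x hx
    by_cases hr : r = 0
    · exact Or.inl hr
    · right
      have h1 := PowerSeries.X_pow_order_mul_divXPowOrder (f := r)
      rw [← PowerSeries.Unit_of_divided_by_X_pow_order_nonzero hr] at h1
      rw [← h1, mul_comm, mul_smul] at hx
      have h2 := (smul_eq_zero_iff_eq (PowerSeries.Unit_of_divided_by_X_pow_order r)).1 hx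
      exact hpow _ _ h2
  exact Module.free_of_finite_type_torsion_free'

end Pool.Agent.X192.EQ
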