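import Pool.Agent.X192.EQ.Sop

set_option autoImplicit false

/-!
# Regular sequences in power series rings
-/

namespace Pool.Agent.X192.EQ

open RingTheory.Sequence IsLocalRing Pointwise

universe u

theorem HasReg.field (K : Type u) [Field K] : HasReg K 0 :=
  ⟨[], rfl, by simp, IsWeaklyRegular.nil K K⟩

theorem HasReg.of_ringEquiv {S S' : Type u} [CommRing S] [CommRing S'] [IsLocalRing S]
    [IsLocalRing S'] {k : ℕ} (h : HasReg S k) (e : S ≃+* S') : HasReg S' k := by
  obtain ⟨rs, h1, h2, h3⟩ := h
  refine ⟨rs.map e, by simp [h1], ?_, ?_⟩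
  · intro r hr
    rw [List.mem_map] at hr
    obtain ⟨x, hx, rfl⟩ := hr
    have := h2 x hx
    rw [IsLocalRing.mem_maximalIdeal, mem_nonunits_iff] at this ⊢
    rwa [MulEquiv.isUnit_map]
  · refine (AddEquiv.isWeaklyRegular_congr (e := e.toAddEquiv) ?_).1 h3
    refine List.forall₂_map_right_iff.mpr (List.forall₂_same.mpr fun r _ x => ?_)
    exact map_mul e r x

/-- an additive equivalence between `S⟦X⟧ ⧸ X` and `S` -/
theorem exists_addEquiv (S : Type u) [CommRing S] :
    ∃ e : QuotSMulTop (PowerSeries.X : PowerSeries S) (PowerSeries S) ≃+ S,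
      ∀ (r : S) (x), e (PowerSeries.C r • x) = r • e x := by
  let f : PowerSeries S →+ S := (PowerSeries.constantCoeff (R := S)).toAddMonoidHom
  have hker : ((PowerSeries.X : PowerSeries S) • (⊤ : Submodule (PowerSeries S)
      (PowerSeries S))).toAddSubgroup = f.ker := by
    ext x
    rw [AddMonoidHom.mem_ker, Submodule.mem_toAddSubgroup, Submodule.mem_smul_pointwise_iff_exists]
    constructor
    · rintro ⟨y, -, rfl⟩
      simp [f]
    · intro hx
      have hx' : PowerSeries.constantCoeff x = 0 := hx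
      obtain ⟨y, rfl⟩ := PowerSeries.X_dvd_iff.2 hx'
      exact ⟨y, trivial, rfl⟩
  have hsurj : Function.Surjective f := fun r => ⟨PowerSeries.C r, by simp [f]⟩
  let e1 := QuotientAddGroup.quotientKerEquivOfSurjective f hsurj
  let e2 := QuotientAddGroup.quotientAddEquivOfEq hker
  refine ⟨e2.trans e1, ?_⟩
  intro r x
  obtain ⟨x, rfl⟩ := Submodule.Quotient.mk_surjective _ x
  change f (PowerSeries.C r * x) = r * f x
  simp [f]

theorem HasReg.powerSeries {S : Type u} [CommRing S] [IsLocalRing S] {k : ℕ} (h : HasReg S k) :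
    HasReg (PowerSeries S) (k + 1) := by
  obtain ⟨rs, h1, h2, h3⟩ := h
  refine ⟨PowerSeries.X :: rs.map PowerSeries.C, by simp [h1], ?_, ?_⟩
  · intro r hr
    rw [List.mem_cons, List.mem_map] at hr
    rw [IsLocalRing.mem_maximalIdeal, mem_nonunits_iff, PowerSeries.isUnit_iff_constantCoeff]
    rcases hr with rfl | ⟨x, hx, rfl⟩
    · simp
    · rw [PowerSeries.constantCoeff_C]
      exact h2 x hx
  · rw [isWeaklyRegular_cons_iff]
    constructor
    · intro a b hab
      exact PowerSeries.X_mul_cancel hab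
    · obtain ⟨e, he⟩ := exists_addEquiv S
      refine (AddEquiv.isWeaklyRegular_congr (e := e) ?_).2 h3
      exact List.forall₂_map_left_iff.mpr (List.forall₂_same.mpr fun r _ x => he r x)

theorem hasReg_mvPowerSeries (K : Type u) [Field K] (n : ℕ) :
    HasReg (MvPowerSeries (Fin n) K) n := by
  induction n with
  | zero =>
    exact (HasReg.field K).of_ringEquiv (MvPowerSeries.isEmptyEquiv (Fin 0) K).symm.toRingEquiv
  | succ n ih =>
    exact ih.powerSeries.of_ringEquiv (MvPowerSeries.finSuccEquiv K n).symm.toRingEquiv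

end Pool.Agent.X192.EQ
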