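import Pool.Agent.X192.EQ.Mat
import Pool.Agent.X192.EQ.Abs
import Pool.Agent.X192.EQ.BC
import Pool.Agent.X192.EQ.Fin
import Pool.Agent.X192.EQ.PS

set_option autoImplicit false

/-!
# The deformation `f + s z`
-/

namespace Pool.Agent.X192.EQ

open Module PowerSeries

/-- the data -/
structure Dat (K R : Type) [Field K] [CommRing R] [Algebra K R] (n : ℕ) where
  x : Fin n → R
  ε : R →ₐ[K] K
  hεx : ∀ i, ε (x i) = 0
  hε : ∀ r, ε r = 0 → r ∈ Ideal.span (Set.range x)
  σ : R →ₐ[K] R
  M : Matrix (Fin n) (Fin n) K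
  Q : Matrix (Fin n) (Fin n) K
  N : Matrix (Fin n) (Fin n) K
  hσ : ∀ i, σ (x i) = act M x i
  hQN : Q = N * (M - 1)
  hMQ : (M - 1) * Q = M - 1
  hQQ : Q * Q = Q
  hQM : Q * M = M * Q
  f : Fin n → R
  hf : ∀ i, σ (f i) = act M f i
  hf0 : ∀ i, ε (f i) = 0
  A : Matrix (Fin n) (Fin n) R
  hA : ∀ i, act Q f i = ∑ j, A i j * act Q x j

namespace Dat

variable {K R : Type} [Field K] [CommRing R] [Algebra K R] {n : ℕ} (D : Dat K R n)

/-- the moving coordinates -/
def z : Fin n → R := act D.Q D.x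

/-- the linear forms `(M - 1) x` -/
def w : Fin n → R := act (D.M - 1) D.x

theorem w_eq : D.w = act (D.M - 1) D.z := by
  unfold w z
  rw [← act_mul, D.hMQ]

theorem z_eq : D.z = act D.N D.w := by
  unfold w z
  rw [← act_mul, ← D.hQN]

theorem act_Q_z : act D.Q D.z = D.z := by
  unfold z
  rw [← act_mul, D.hQQ]

theorem span_w : Ideal.span (Set.range D.w) = Ideal.span (Set.range D.z) := by
  apply le_antisymm
  · rw [Ideal.span_le]
    rintro _ ⟨i, rfl⟩
    rw [D.w_eq]
    exact act_mem _ _ (Ideal.span (Set.range D.z)) (fun j => Ideal.subset_span ⟨j, rfl⟩) i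
  · rw [Ideal.span_le]
    rintro _ ⟨i, rfl⟩
    rw [D.z_eq]
    exact act_mem _ _ (Ideal.span (Set.range D.w)) (fun j => Ideal.subset_span ⟨j, rfl⟩) i

theorem σ_x : (fun i => D.σ (D.x i)) = act D.M D.x := funext D.hσ

theorem σ_f : (fun i => D.σ (D.f i)) = act D.M D.f := funext D.hf

theorem σ_z (i : Fin n) : D.σ (D.z i) = act D.M D.z i := by
  unfold z
  rw [map_act, D.σ_x, ← act_mul, ← act_mul, D.hQM]

/-- the deformed equations -/
noncomputable def F (i : Fin n) : PowerSeries R := C (D.f i) + X * C (D.z i)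

/-- the ideal of the deformed equations -/
noncomputable def IF : Ideal (PowerSeries R) := Ideal.span (Set.range D.F)

/-- the ideal of the original equations -/
def If : Ideal R := Ideal.span (Set.range D.f)

/-- the action on power series in `s` -/
noncomputable def σS : PowerSeries R →ₐ[PowerSeries K] PowerSeries R where
  toRingHom := PowerSeries.map (D.σ : R →+* R)
  commutes' := by
    intro r
    change PowerSeries.map (D.σ : R →+* R) (PowerSeries.map (algebraMap K R) r) =
      PowerSeries.map (algebraMap K R) r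
    ext k
    simp

theorem σS_C (r : R) : D.σS (C r) = C (D.σ r) := by
  change PowerSeries.map (D.σ : R →+* R) (C r) = _
  simp

theorem σS_X : D.σS X = X := by
  change PowerSeries.map (D.σ : R →+* R) X = _
  simp

theorem C_act (Q : Matrix (Fin n) (Fin n) K) (v : Fin n → R) (i : Fin n) :
    (C (act Q v i) : PowerSeries R) = ∑ j, C (algebraMap K R (Q i j)) * C (v j) := by
  simp only [act, map_sum, Algebra.smul_def, map_mul]

theorem C_act_F (Q : Matrix (Fin n) (Fin n) K) (i : Fin n) :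
    (C (act Q D.f i) : PowerSeries R) + X * C (act Q D.z i) =
      ∑ j, C (algebraMap K R (Q i j)) * D.F j := by
  rw [C_act, C_act, Finset.mul_sum, ← Finset.sum_add_distrib]
  refine Finset.sum_congr rfl fun j _ => ?_
  unfold F
  ring

theorem act_F_mem (Q : Matrix (Fin n) (Fin n) K) (i : Fin n) :
    (C (act Q D.f i) : PowerSeries R) + X * C (act Q D.z i) ∈ D.IF := by
  rw [C_act_F]
  exact Ideal.sum_mem _ fun j _ => Ideal.mul_mem_left _ _ (Ideal.subset_span ⟨j, rfl⟩)

theorem σS_F (i : Fin n) : D.σS (D.F i) ∈ D.IF := by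
  have : D.σS (D.F i) = C (act D.M D.f i) + X * C (act D.M D.z i) := by
    unfold F
    rw [map_add, map_mul, D.σS_C, D.σS_C, D.σS_X, D.hf, D.σ_z]
  rw [this]
  exact D.act_F_mem _ i

theorem IF_le : D.IF ≤ D.IF.comap D.σS := by
  unfold IF
  rw [Ideal.span_le]
  rintro _ ⟨i, rfl⟩
  exact D.σS_F i

/-- the action on the deformed algebra -/
noncomputable def TB : (PowerSeries R ⧸ D.IF) →ₐ[PowerSeries K] (PowerSeries R ⧸ D.IF) :=
  Ideal.quotientMapₐ D.IF D.σS D.IF_le

theorem TB_mk (h : PowerSeries R) :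
    D.TB (Ideal.Quotient.mk D.IF h) = Ideal.Quotient.mk D.IF (D.σS h) := rfl

end Dat

end Pool.Agent.X192.EQ
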