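import Pool.Agent.X192.EQ.Core

set_option autoImplicit false
set_option linter.unusedSectionVars false

/-!
# The determinant and the idempotent
-/

namespace Pool.Agent.X192.EQ

open Module PowerSeries IsLocalRing

/-- `det (A + s)` over `K` is not zero -/
theorem det_ne_zero {K : Type} [Field K] {n : ℕ} (A : Matrix (Fin n) (Fin n) K) :
    (A.map (C : K →+* PowerSeries K) + (X : PowerSeries K) • 1).det ≠ 0 := by
  have h1 : A.map (C : K →+* PowerSeries K) + (X : PowerSeries K) • 1 =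
      (Polynomial.coeToPowerSeries.ringHom (R := K)).mapMatrix (-A).charmatrix := by
    ext1 i j
    rw [RingHom.mapMatrix_apply, Matrix.map_apply, Matrix.charmatrix_apply, Matrix.add_apply,
      Matrix.map_apply, Matrix.smul_apply, Matrix.neg_apply]
    rw [Polynomial.coeToPowerSeries.ringHom_apply]
    rcases eq_or_ne i j with rfl | h
    · simp [add_comm]
    · simp [Matrix.one_apply_ne h, Matrix.diagonal_apply_ne _ h]
  rw [h1, ← RingHom.map_det]
  have h2 : (-A).charmatrix.det = (-A).charpoly := rfl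
  rw [h2, Polynomial.coeToPowerSeries.ringHom_apply]
  intro h
  exact (Matrix.charpoly_monic (-A)).ne_zero (Polynomial.coe_eq_zero_iff.1 h)

namespace Dat

variable {K R : Type} [Field K] [CommRing R] [Algebra K R] {n : ℕ} (D : Dat K R n)

/-- the matrix `A + s` -/
noncomputable def Dm : Matrix (Fin n) (Fin n) (PowerSeries R) :=
  D.A.map (C : R →+* PowerSeries R) + (X : PowerSeries R) • 1

theorem Dm_mulVec (i : Fin n) : (D.Dm.mulVec fun j => C (D.z j)) i ∈ D.IF := by
  have h1 : (D.Dm.mulVec fun j => C (D.z j)) i =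
      C (act D.Q D.f i) + X * C (act D.Q D.z i) := by
    rw [D.act_Q_z, D.hA]
    unfold Dm
    rw [Matrix.add_mulVec, Pi.add_apply, Matrix.smul_mulVec, Matrix.one_mulVec, map_sum]
    congr 1
    simp only [Matrix.mulVec, dotProduct, Matrix.map_apply, map_mul]
    rfl
  rw [h1]
  exact D.act_F_mem _ i

theorem det_mul_mem (i : Fin n) : D.Dm.det * C (D.z i) ∈ D.IF := by
  have h1 : D.Dm.det * C (D.z i) =
      (D.Dm.adjugate.mulVec (D.Dm.mulVec fun j => C (D.z j))) i := by
    rw [Matrix.mulVec_mulVec, Matrix.adjugate_mul, Matrix.smul_mulVec, Matrix.one_mulVec]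
    rfl
  rw [h1]
  simp only [Matrix.mulVec, dotProduct]
  refine Ideal.sum_mem _ fun j _ => Ideal.mul_mem_left _ _ ?_
  exact D.Dm_mulVec j

theorem det_mul_mem' (h : PowerSeries R) (hh : h ∈ D.Jz) : D.Dm.det * h ∈ D.IF := by
  have h1 : D.Jz ≤ Submodule.comap (LinearMap.mulLeft (PowerSeries R) D.Dm.det) D.IF := by
    rw [D.Jz_eq]
    refine sup_le ?_ ?_
    · intro g hg
      exact Ideal.mul_mem_left _ _ hg
    · rw [Ideal.span_le]
      rintro _ ⟨i, rfl⟩
      exact D.det_mul_mem i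
  exact h1 hh

/-- the characteristic series -/
noncomputable def pi0 : PowerSeries K :=
  ((D.A.map D.ε).map (C : K →+* PowerSeries K) + (X : PowerSeries K) • 1).det

theorem det_sub_mem : PowerSeries.map (algebraMap K R) D.pi0 - D.Dm.det ∈
    (Ideal.span (Set.range D.x)).map (C : R →+* PowerSeries R) := by
  rw [← Ideal.Quotient.eq]
  unfold pi0 Dm
  rw [RingHom.map_det, RingHom.map_det, RingHom.map_det]
  congr 1
  ext1 i j
  simp only [RingHom.mapMatrix_apply, Matrix.map_apply, Matrix.add_apply, Matrix.smul_apply,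
    map_add]
  have h1 : ∀ k : PowerSeries K,
      k = (X : PowerSeries K) • (1 : Matrix (Fin n) (Fin n) (PowerSeries K)) i j →
      PowerSeries.map (algebraMap K R) k = 
        (X : PowerSeries R) • (1 : Matrix (Fin n) (Fin n) (PowerSeries R)) i j := by
    rintro k rfl
    rcases eq_or_ne i j with rfl | h
    · simp
    · simp [Matrix.one_apply_ne h]
  rw [h1 _ rfl]
  congr 1
  rw [Ideal.Quotient.eq, PowerSeries.map_C, ← map_sub]
  refine Ideal.mem_map_of_mem _ ?_
  rw [← neg_sub, Ideal.neg_mem_iff]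
  apply D.hε
  rw [map_sub, AlgHom.commutes, sub_eq_zero]
  rfl

theorem exists_idem [IsLocalRing R] [IsNoetherianRing R] [Module.Finite K (R ⧸ D.If)] :
    ∃ d : PowerSeries K, d ≠ 0 ∧ ∃ j ∈ D.J, ∀ a ∈ D.J, j * a = d • a := by
  obtain ⟨k, hk⟩ := D.exists_pow_le
  refine ⟨D.pi0 ^ k, pow_ne_zero _ (det_ne_zero _), ?_⟩
  set p := PowerSeries.map (algebraMap K R) D.pi0 with hp
  obtain ⟨u, hu⟩ := sub_dvd_pow_sub_pow p (p - D.Dm.det) k
  rw [sub_sub_cancel] at hu
  have h1 : (p - D.Dm.det) ^ k ∈ D.Jz := by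
    have h2 := Ideal.pow_mem_pow D.det_sub_mem k
    rw [← Ideal.map_pow] at h2
    refine Ideal.map_mono (hk.trans ?_) h2
    exact le_sup_left
  refine ⟨Ideal.Quotient.mk D.IF ((p - D.Dm.det) ^ k), (D.mem_J _).2 h1, ?_⟩
  intro a ha
  obtain ⟨a, rfl⟩ := Ideal.Quotient.mk_surjective a
  rw [D.mem_J] at ha
  have h3 : (p - D.Dm.det) ^ k = p ^ k - D.Dm.det * u := by rw [← hu]; ring
  rw [smul_mk_eq, ← map_mul, Ideal.Quotient.eq, h3, map_pow, ← hp]
  have h4 : (p ^ k - D.Dm.det * u) * a - p ^ k * a = -(u * (D.Dm.det * a)) := by ring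
  rw [h4, Ideal.neg_mem_iff]
  exact Ideal.mul_mem_left _ _ (D.det_mul_mem' a ha)

end Dat

end Pool.Agent.X192.EQ
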