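import Pool.Agent.X192.EQ.Dat

set_option autoImplicit false

/-!
# Flatness and finiteness of the deformation
-/

namespace Pool.Agent.X192.EQ

open Module PowerSeries

namespace Dat

variable {K R : Type} [Field K] [CommRing R] [Algebra K R] {n : ℕ} (D : Dat K R n)

/-- the ideal of the equations and the moving coordinates -/
def Iz : Ideal R := Ideal.span (Set.range D.f) ⊔ Ideal.span (Set.range D.z)

/-- the extension of `Iz` -/
noncomputable def Jz : Ideal (PowerSeries R) := D.Iz.map C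

theorem C_z_mem (i : Fin n) : (C (D.z i) : PowerSeries R) ∈ D.Jz :=
  Ideal.mem_map_of_mem _ (Ideal.mem_sup_right (Ideal.subset_span ⟨i, rfl⟩))

theorem C_f_mem (i : Fin n) : (C (D.f i) : PowerSeries R) ∈ D.Jz :=
  Ideal.mem_map_of_mem _ (Ideal.mem_sup_left (Ideal.subset_span ⟨i, rfl⟩))

theorem IF_le_Jz : D.IF ≤ D.Jz := by
  unfold IF
  rw [Ideal.span_le]
  rintro _ ⟨i, rfl⟩
  exact Ideal.add_mem _ (D.C_f_mem i) (Ideal.mul_mem_left _ _ (D.C_z_mem i))

theorem Jz_eq : D.Jz = D.IF ⊔ Ideal.span (Set.range fun i => (C (D.z i) : PowerSeries R)) := by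
  apply le_antisymm
  · unfold Jz Iz
    rw [Ideal.map_sup, Ideal.map_span, Ideal.map_span]
    refine sup_le ?_ ?_
    · rw [Ideal.span_le]
      rintro _ ⟨_, ⟨i, rfl⟩, rfl⟩
      have h : (C (D.f i) : PowerSeries R) = D.F i - X * C (D.z i) := by
        unfold F
        ring
      rw [SetLike.mem_coe, h]
      refine Ideal.sub_mem _ (Ideal.mem_sup_left (Ideal.subset_span ⟨i, rfl⟩))
        (Ideal.mem_sup_right (Ideal.mul_mem_left _ _ (Ideal.subset_span ⟨i, rfl⟩)))
    · rw [Ideal.span_le]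
      rintro _ ⟨_, ⟨i, rfl⟩, rfl⟩
      exact Ideal.mem_sup_right (Ideal.subset_span ⟨i, rfl⟩)
  · refine sup_le D.IF_le_Jz ?_
    rw [Ideal.span_le]
    rintro _ ⟨i, rfl⟩
    exact D.C_z_mem i

/-- an extended ideal is `X`-saturated and contains constant coefficients -/
theorem map_C_key (I : Ideal R) (g : PowerSeries R) (hg : g ∈ I.map (C : R →+* PowerSeries R)) :
    constantCoeff g ∈ I ∧ ∀ h, g - C (constantCoeff g) = X * h → h ∈ I.map C := by
  unfold Ideal.map at hg
  induction hg using Submodule.span_induction with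
  | mem y hy => 
    obtain ⟨a, ha, rfl⟩ := hy
    refine ⟨by simpa using ha, fun h hh => ?_⟩
    rw [constantCoeff_C, sub_self] at hh
    have : h = 0 := by
      apply X_mul_cancel
      rw [← hh, mul_zero]
    rw [this]
    exact Ideal.zero_mem _
  | zero => 
    refine ⟨by simp, fun h hh => ?_⟩
    rw [map_zero, map_zero, sub_self] at hh
    have : h = 0 := by
      apply X_mul_cancel
      rw [← hh, mul_zero]
    rw [this]
    exact Ideal.zero_mem _
  | add a b _ _ ha hb =>
    refine ⟨by rw [map_add]; exact Ideal.add_mem _ ha.1 hb.1, fun h hh => ?_⟩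
    obtain ⟨ha', hha⟩ := X_dvd_iff.2 (show constantCoeff (a - C (constantCoeff a)) = 0 by simp)
    obtain ⟨hb', hhb⟩ := X_dvd_iff.2 (show constantCoeff (b - C (constantCoeff b)) = 0 by simp)
    have : h = ha' + hb' := by
      apply X_mul_cancel
      rw [← hh, mul_add, ← hha, ← hhb]
      simp only [map_add]
      ring
    rw [this]
    exact Ideal.add_mem _ (ha.2 _ hha) (hb.2 _ hhb)
  | smul r a ha' ha =>
    refine ⟨by rw [smul_eq_mul, map_mul]; exact Ideal.mul_mem_left _ _ ha.1, fun h hh => ?_⟩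
    obtain ⟨a', hha⟩ := X_dvd_iff.2 (show constantCoeff (a - C (constantCoeff a)) = 0 by simp)
    obtain ⟨r', hhr⟩ := X_dvd_iff.2 (show constantCoeff (r - C (constantCoeff r)) = 0 by simp)
    have : h = r' * a + C (constantCoeff r) * a' := by
      apply X_mul_cancel
      rw [← hh, mul_add, ← mul_assoc, ← hhr, mul_left_comm, ← hha]
      simp only [smul_eq_mul, map_mul]
      ring
    rw [this]
    exact Ideal.add_mem _ (Ideal.mul_mem_left _ _ ha') (Ideal.mul_mem_left _ _ (ha.2 _ hha))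

theorem X_mul_mem_map (I : Ideal R) (h : PowerSeries R)
    (hh : X * h ∈ I.map (C : R →+* PowerSeries R)) : h ∈ I.map (C : R →+* PowerSeries R) := by
  refine (map_C_key I _ hh).2 h ?_
  simp

theorem mem_of_constantCoeff (I : Ideal R) (J : Ideal (PowerSeries R))
    (hJ : ∀ r ∈ I, ∃ g, (C r + X * g : PowerSeries R) ∈ J) (h : PowerSeries R)
    (hh : constantCoeff h ∈ I) : ∃ g, h - X * g ∈ J := by
  obtain ⟨g, hg⟩ := hJ _ hh
  obtain ⟨h', hh'⟩ := X_dvd_iff.2 (show constantCoeff (h - C (constantCoeff h)) = 0 by simp)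
  refine ⟨h' - g, ?_⟩
  have : h - X * (h' - g) = C (constantCoeff h) + X * g := by
    rw [mul_sub, ← hh']
    ring
  rw [this]
  exact hg

theorem IF_le_comap : D.IF ≤ D.If.comap (constantCoeff (R := R)) := by
  unfold IF
  rw [Ideal.span_le]
  rintro _ ⟨i, rfl⟩
  rw [SetLike.mem_coe, Ideal.mem_comap]
  have : constantCoeff (D.F i) = D.f i := by
    unfold F
    simp
  rw [this]
  exact Ideal.subset_span ⟨i, rfl⟩

theorem exists_mem_IF (r : R) (hr : r ∈ D.If) : ∃ g, (C r + X * g : PowerSeries R) ∈ D.IF := by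
  unfold If at hr
  induction hr using Submodule.span_induction with
  | mem y hy =>
    obtain ⟨i, rfl⟩ := hy
    exact ⟨C (D.z i), Ideal.subset_span ⟨i, rfl⟩⟩
  | zero => exact ⟨0, by simp⟩
  | add a b _ _ ha hb =>
    obtain ⟨g, hg⟩ := ha
    obtain ⟨g', hg'⟩ := hb
    refine ⟨g + g', ?_⟩
    have := Ideal.add_mem _ hg hg'
    rw [map_add]
    convert! this using 1
    ring
  | smul r a _ ha =>
    obtain ⟨g, hg⟩ := ha
    refine ⟨C r * g, ?_⟩
    have := Ideal.mul_mem_left _ (C r) hg
    rw [smul_eq_mul, map_mul]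
    convert! this using 1
    ring

end Dat

end Pool.Agent.X192.EQ
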