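import Pool.Agent.X192.EQ.Maps

set_option autoImplicit false
set_option linter.unusedSectionVars false

/-!
# Generation by the coordinates
-/

namespace Pool.Agent.X192.EQ

open Module PowerSeries IsLocalRing

namespace Dat

variable {K R : Type} [Field K] [CommRing R] [Algebra K R] {n : ℕ} (D : Dat K R n)

theorem If_le_ker : ∀ a ∈ D.If, D.ε a = 0 := by
  intro a ha
  have : D.If ≤ RingHom.ker D.ε := by
    unfold If
    rw [Ideal.span_le]
    rintro _ ⟨i, rfl⟩
    exact D.hf0 i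
  exact this ha

theorem span_x_le : Ideal.span (Set.range D.x) ≤ RingHom.ker D.ε := by
  rw [Ideal.span_le]
  rintro _ ⟨i, rfl⟩
  exact D.hεx i

theorem exists_pow_le [IsLocalRing R] [Module.Finite K (R ⧸ D.If)] :
    ∃ k, Ideal.span (Set.range D.x) ^ k ≤ D.If := by
  have hart : IsArtinianRing (R ⧸ D.If) := IsArtinianRing.of_finite K (R ⧸ D.If)
  let e : (R ⧸ D.If) →+* K := Ideal.Quotient.lift D.If (D.ε : R →+* K) D.If_le_ker
  have hnt : Nontrivial (R ⧸ D.If) := e.domain_nontrivial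
  have hloc : IsLocalRing (R ⧸ D.If) :=
    IsLocalRing.of_surjective' (Ideal.Quotient.mk D.If) Ideal.Quotient.mk_surjective
  obtain ⟨k, hk⟩ := IsArtinianRing.isNilpotent_jacobson_bot (R := R ⧸ D.If)
  refine ⟨k, ?_⟩
  have h1 : (Ideal.span (Set.range D.x)).map (Ideal.Quotient.mk D.If) ≤ RingHom.ker e := by
    rw [Ideal.map_le_iff_le_comap]
    intro r hr
    rw [Ideal.mem_comap, RingHom.mem_ker]
    exact D.span_x_le hr
  have h2 : (Ideal.span (Set.range D.x)).map (Ideal.Quotient.mk D.If) ≤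
      Ideal.jacobson (⊥ : Ideal (R ⧸ D.If)) := by
    rw [IsLocalRing.jacobson_eq_maximalIdeal _ bot_ne_top]
    exact h1.trans (IsLocalRing.le_maximalIdeal (RingHom.ker_ne_top e))
  have h3 : (Ideal.span (Set.range D.x) ^ k).map (Ideal.Quotient.mk D.If) ≤ ⊥ := by
    rw [Ideal.map_pow]
    refine (Ideal.pow_right_mono h2 k).trans ?_
    rw [hk]
    rfl
  rw [Ideal.map_le_iff_le_comap] at h3
  intro r hr
  have := h3 hr
  rw [Ideal.mem_comap, Ideal.mem_bot, Ideal.Quotient.eq_zero_iff_mem] at this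
  exact this

theorem exists_poly (k : ℕ) : ∀ r : R, ∃ p ∈ Algebra.adjoin K (Set.range D.x),
    r - p ∈ Ideal.span (Set.range D.x) ^ k := by
  induction k with
  | zero => 
    intro r
    exact ⟨0, Subalgebra.zero_mem _, by simp⟩
  | succ k ih =>
    intro r
    have h1 : r - algebraMap K R (D.ε r) ∈ Ideal.span (Set.range D.x) := by
      apply D.hε
      rw [map_sub, AlgHom.commutes, sub_eq_zero]
      rfl
    rw [Ideal.mem_span_range_iff_exists_fun] at h1
    obtain ⟨c, hc⟩ := h1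
    choose p hp hcp using fun i => ih (c i)
    refine ⟨algebraMap K R (D.ε r) + ∑ i, p i * D.x i, ?_, ?_⟩
    · refine Subalgebra.add_mem _ (Subalgebra.algebraMap_mem _ _) (Subalgebra.sum_mem _ fun i _ => ?_)
      exact Subalgebra.mul_mem _ (hp i) (Algebra.subset_adjoin ⟨i, rfl⟩)
    · have h2 : r - (algebraMap K R (D.ε r) + ∑ i, p i * D.x i) = ∑ i, (c i - p i) * D.x i := by
        simp only [sub_mul, Finset.sum_sub_distrib]
        rw [hc]
        ring
      rw [h2, pow_succ]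
      exact Ideal.sum_mem _ fun i _ => Ideal.mul_mem_mul (hcp i) (Ideal.subset_span ⟨i, rfl⟩)

theorem adjoin_A [IsLocalRing R] [Module.Finite K (R ⧸ D.If)] :
    Algebra.adjoin K (Set.range fun i => Ideal.Quotient.mk D.If (D.x i)) = ⊤ := by
  rw [eq_top_iff]
  rintro a -
  obtain ⟨r, rfl⟩ := Ideal.Quotient.mk_surjective a
  obtain ⟨k, hk⟩ := D.exists_pow_le
  obtain ⟨p, hp, hrp⟩ := D.exists_poly k r
  have h1 : Ideal.Quotient.mk D.If r = Ideal.Quotient.mk D.If p := by
    rw [Ideal.Quotient.eq]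
    exact hk hrp
  rw [h1]
  have h2 : Ideal.Quotient.mkₐ K D.If p ∈
      (Algebra.adjoin K (Set.range D.x)).map (Ideal.Quotient.mkₐ K D.If) :=
    Subalgebra.mem_map.2 ⟨p, hp, rfl⟩
  rw [AlgHom.map_adjoin, ← Set.range_comp] at h2
  exact h2

/-- the reduction of the deformed algebra -/
noncomputable def q : (PowerSeries R ⧸ D.IF) →ₛₗ[(constantCoeff : PowerSeries K →+* K)]
    (R ⧸ D.If) := redMap D.IF D.If D.IF_le_comap

theorem q_mk (g : PowerSeries R) :
    D.q (Ideal.Quotient.mk D.IF g) = Ideal.Quotient.mk D.If (constantCoeff g) :=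
  redMap_mk _ _ _ _

theorem q_surjective : Function.Surjective D.q := redMap_surjective _ _ _

theorem q_ker (y : PowerSeries R ⧸ D.IF) (hy : D.q y = 0) : ∃ y', y = (X : PowerSeries K) • y' :=
  redMap_ker _ _ _ D.exists_mem_IF y hy

/-- the subalgebra generated by the coordinates -/
noncomputable def Pol : Subalgebra (PowerSeries K) (PowerSeries R ⧸ D.IF) :=
  Algebra.adjoin (PowerSeries K) (Set.range fun i => Ideal.Quotient.mk D.IF (C (D.x i)))

theorem exists_lift [IsLocalRing R] [Module.Finite K (R ⧸ D.If)] (a : R ⧸ D.If) :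
    ∃ b ∈ D.Pol, D.q b = a := by
  have ha : a ∈ Algebra.adjoin K (Set.range fun i => Ideal.Quotient.mk D.If (D.x i)) := by
    rw [D.adjoin_A]
    trivial
  have hmul : ∀ b b', D.q (b * b') = D.q b * D.q b' := by
    intro b b'
    obtain ⟨b, rfl⟩ := Ideal.Quotient.mk_surjective b
    obtain ⟨b', rfl⟩ := Ideal.Quotient.mk_surjective b'
    rw [← map_mul, q_mk, q_mk, q_mk, map_mul, map_mul]
  induction ha using Algebra.adjoin_induction with
  | mem y hy => 
    obtain ⟨i, rfl⟩ := hy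
    exact ⟨_, Algebra.subset_adjoin ⟨i, rfl⟩, by rw [q_mk, constantCoeff_C]⟩
  | algebraMap r => 
    refine ⟨algebraMap (PowerSeries K) _ (C r), Subalgebra.algebraMap_mem _ _, ?_⟩
    change D.q (Ideal.Quotient.mk D.IF (PowerSeries.map (algebraMap K R) (C r))) = _
    rw [q_mk, PowerSeries.map_C, constantCoeff_C]
    rfl
  | add a a' _ _ h h' =>
    obtain ⟨b, hb, rfl⟩ := h
    obtain ⟨b', hb', rfl⟩ := h'
    exact ⟨b + b', Subalgebra.add_mem _ hb hb', map_add _ _ _⟩
  | mul a a' _ _ h h' =>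
    obtain ⟨b, hb, rfl⟩ := h
    obtain ⟨b', hb', rfl⟩ := h'
    exact ⟨b * b', Subalgebra.mul_mem _ hb hb', hmul _ _⟩

theorem exists_gen [IsLocalRing R] [IsNoetherianRing R] [Module.Finite K (R ⧸ D.If)] :
    ∃ (m : ℕ) (v : Fin m → PowerSeries R ⧸ D.IF), (∀ i, v i ∈ D.Pol) ∧
      Submodule.span (PowerSeries K) (Set.range v) = ⊤ := by
  obtain ⟨m, u, hu⟩ := Module.Finite.exists_fin (R := K) (M := R ⧸ D.If)
  choose v hv hqv using fun i => D.exists_lift (u i)
  refine ⟨m, v, hv, ?_⟩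
  have hH : IsHausdorff (Ideal.span {(X : PowerSeries K)}) (PowerSeries R ⧸ D.IF) := isHausdorff _
  refine span_eq_top_of_red (φ := (constantCoeff : PowerSeries K →+* K)) 
    (fun r => ⟨C r, by simp⟩) X D.q D.q_ker v ?_
  simp only [hqv]
  exact hu

end Dat

end Pool.Agent.X192.EQ
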