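import Pool.Agent.X192.EQ.Flat

set_option autoImplicit false
set_option linter.unusedSectionVars false

/-!
# `s` is a nonzerodivisor on the deformed algebra
-/

namespace Pool.Agent.X192.EQ

open Module PowerSeries IsLocalRing RingTheory.Sequence

namespace Dat

variable {K R : Type} [Field K] [CommRing R] [Algebra K R] {n : ℕ} (D : Dat K R n)

theorem not_isUnit_of_ε {r : R} (h : D.ε r = 0) : ¬ IsUnit r := by
  intro hu
  have := hu.map D.ε
  rw [h] at this
  exact not_isUnit_zero this

variable [IsLocalRing R] [IsNoetherianRing R]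

theorem mem_max {r : R} (h : D.ε r = 0) : r ∈ maximalIdeal R := by
  rw [IsLocalRing.mem_maximalIdeal, mem_nonunits_iff]
  exact D.not_isUnit_of_ε h

theorem F_mem (i : Fin n) : D.F i ∈ maximalIdeal (PowerSeries R) := by
  rw [IsLocalRing.mem_maximalIdeal, mem_nonunits_iff, PowerSeries.isUnit_iff_constantCoeff]
  have : constantCoeff (D.F i) = D.f i := by
    unfold F
    simp
  rw [this]
  exact D.not_isUnit_of_ε (D.hf0 i)

theorem X_mem_max : (X : PowerSeries R) ∈ maximalIdeal (PowerSeries R) := by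
  rw [IsLocalRing.mem_maximalIdeal, mem_nonunits_iff, PowerSeries.isUnit_iff_constantCoeff]
  simp

theorem ofList_ofFn (g : Fin n → PowerSeries R) :
    Ideal.ofList (List.ofFn g) = Ideal.span (Set.range g) := by
  unfold Ideal.ofList
  congr 1
  ext y
  simp [List.mem_ofFn]

theorem dim_le [Module.Finite K (R ⧸ D.If)] :
    ringKrullDim (PowerSeries R ⧸ Ideal.ofList (List.ofFn D.F ++ [X])) ≤ 0 := by
  have hart : IsArtinianRing (R ⧸ D.If) := IsArtinianRing.of_finite K (R ⧸ D.If)
  have h0 : ringKrullDim (R ⧸ D.If) ≤ 0 := by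
    have h := (inferInstance : Ring.KrullDimLE 0 (R ⧸ D.If))
    exact_mod_cast Ring.krullDimLE_iff.1 h
  refine le_trans ?_ h0
  have hk : ∀ a ∈ D.If, ((Ideal.Quotient.mk (Ideal.ofList (List.ofFn D.F ++ [X]))).comp
      (C : R →+* PowerSeries R)) a = 0 := by
    intro a ha
    obtain ⟨g, hg⟩ := D.exists_mem_IF a ha
    rw [RingHom.comp_apply, Ideal.Quotient.eq_zero_iff_mem, Ideal.ofList_append, ofList_ofFn,
      Ideal.ofList_singleton]
    have : (C a : PowerSeries R) = (C a + X * g) - X * g := by ring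
    rw [this]
    exact Ideal.sub_mem _ (Ideal.mem_sup_left hg) (Ideal.mem_sup_right
      (Ideal.mul_mem_right _ _ (Ideal.mem_span_singleton_self _)))
  refine ringKrullDim_le_of_surjective (Ideal.Quotient.lift D.If _ hk) ?_
  refine Ideal.Quotient.lift_surjective_of_surjective D.If hk ?_
  intro y
  obtain ⟨y, rfl⟩ := Ideal.Quotient.mk_surjective y
  refine ⟨constantCoeff y, ?_⟩
  rw [RingHom.comp_apply, Ideal.Quotient.eq, ← neg_sub, Ideal.neg_mem_iff]
  obtain ⟨h', hh'⟩ := X_dvd_iff.2 (show constantCoeff (y - C (constantCoeff y)) = 0 by simp)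
  rw [hh', Ideal.ofList_append, Ideal.ofList_singleton]
  exact Ideal.mem_sup_right (Ideal.mul_mem_right _ _ (Ideal.mem_span_singleton_self _))

theorem X_mul_mem_IF [Module.Finite K (R ⧸ D.If)] (hreg : HasReg R n) (h : PowerSeries R)
    (hh : X * h ∈ D.IF) : h ∈ D.IF := by
  have h1 : IsWeaklyRegular (PowerSeries R) (List.ofFn D.F ++ [X]) := by
    refine sop (n + 1) hreg.powerSeries _ ?_ (by simp) D.dim_le
    intro g hg
    rw [List.mem_append, List.mem_ofFn', List.mem_singleton] at hg
    rcases hg with ⟨i, rfl⟩ | rfl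
    · exact D.F_mem i
    · exact X_mem_max
  rw [isWeaklyRegular_append_iff, isWeaklyRegular_singleton_iff] at h1
  have h2 := h1.2
  rw [isSMulRegular_quotient_iff_mem_of_smul_mem] at h2
  have h3 : (Ideal.ofList (List.ofFn D.F) • (⊤ : Submodule (PowerSeries R) (PowerSeries R))) =
      D.IF := by
    rw [ofList_ofFn, smul_eq_mul, Ideal.mul_top]
    rfl
  rw [h3] at h2
  exact h2 h hh

end Dat

end Pool.Agent.X192.EQ
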