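import Pool.Agent.X192.EQ.Det

set_option autoImplicit false
set_option linter.unusedSectionVars false

/-!
# The trace on the local algebra
-/

namespace Pool.Agent.X192.EQ

open Module PowerSeries IsLocalRing

namespace Dat

variable {K R : Type} [Field K] [CommRing R] [Algebra K R] {n : ℕ} (D : Dat K R n)

theorem Jz_le_comap : D.Jz ≤ D.Iz.comap (constantCoeff (R := R)) := by
  unfold Jz
  rw [Ideal.map_le_iff_le_comap]
  intro r hr
  rw [Ideal.mem_comap, Ideal.mem_comap, constantCoeff_C]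
  exact hr

theorem finrank_E [IsLocalRing R] [IsNoetherianRing R] [Module.Finite K (R ⧸ D.If)] :
    Module.Free (PowerSeries K) ((PowerSeries R ⧸ D.IF) ⧸ D.J) ∧
      finrank (PowerSeries K) ((PowerSeries R ⧸ D.IF) ⧸ D.J) = finrank K (R ⧸ D.Iz) := by
  have hB := D.finite_B
  let e : ((PowerSeries R ⧸ D.IF) ⧸ D.J) ≃ₐ[PowerSeries K] (PowerSeries R ⧸ D.Jz) :=
    DoubleQuot.quotQuotEquivQuotOfLEₐ (PowerSeries K) D.IF_le_Jz
  have hE : Module.Finite (PowerSeries K) ((PowerSeries R ⧸ D.IF) ⧸ D.J) := inferInstance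
  have hE' : Module.Finite (PowerSeries K) (PowerSeries R ⧸ D.Jz) :=
    Module.Finite.equiv e.toLinearEquiv
  have hfree : Module.Free (PowerSeries K) (PowerSeries R ⧸ D.Jz) := by
    refine free_powerSeries fun x hx => ?_
    obtain ⟨x, rfl⟩ := Ideal.Quotient.mk_surjective x
    rw [X_smul_mk, Ideal.Quotient.eq_zero_iff_mem] at hx
    rw [Ideal.Quotient.eq_zero_iff_mem]
    exact X_mul_mem_map _ _ hx
  refine ⟨Module.Free.of_equiv e.toLinearEquiv.symm, ?_⟩
  rw [e.toLinearEquiv.finrank_eq]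
  refine (finrank_red (φ := (constantCoeff : PowerSeries K →+* K)) (fun r => ⟨C r, by simp⟩) X
    (by simp) (redMap D.Jz D.Iz D.Jz_le_comap) (redMap_surjective _ _ _)
    (redMap_ker _ _ _ ?_)).symm
  intro r hr
  refine ⟨0, ?_⟩
  rw [mul_zero, add_zero]
  exact Ideal.mem_map_of_mem _ hr

theorem If_le : D.If ≤ D.If.comap D.σ := by
  unfold If
  rw [Ideal.span_le]
  rintro _ ⟨i, rfl⟩
  rw [SetLike.mem_coe, Ideal.mem_comap, D.hf]
  exact act_mem _ _ (Ideal.span (Set.range D.f)) (fun j => Ideal.subset_span ⟨j, rfl⟩) i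

theorem trace_eq [IsLocalRing R] [IsNoetherianRing R] [Module.Finite K (R ⧸ D.If)]
    (hreg : HasReg R n) (T : (R ⧸ D.If) →ₐ[K] (R ⧸ D.If))
    (hT : ∀ i, T (Ideal.Quotient.mk D.If (D.x i)) = Ideal.Quotient.mk D.If (act D.M D.x i)) :
    LinearMap.trace K (R ⧸ D.If) T.toLinearMap = (finrank K (R ⧸ D.Iz) : K) := by
  have hB := D.finite_B
  have hfree := D.free_B hreg
  obtain ⟨hE1, hE2⟩ := D.finrank_E
  obtain ⟨d, hd, j, hj, hjd⟩ := D.exists_idem
  have h1 := trace_eq_finrank D.TB D.J D.TB_sub_mem D.J_le d hd j hj hjd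
  have hTσ : T = Ideal.quotientMapₐ D.If D.σ D.If_le := by
    refine AlgHom.ext_of_adjoin_eq_top D.adjoin_A ?_
    rintro _ ⟨i, rfl⟩
    simp only
    rw [hT]
    change _ = Ideal.Quotient.mk D.If (D.σ (D.x i))
    rw [D.hσ]
  have h2 := trace_red (φ := (constantCoeff : PowerSeries K →+* K)) (fun r => ⟨C r, by simp⟩) X
    (by simp) D.q D.q_surjective D.q_ker D.TB.toLinearMap T.toLinearMap (by
      intro b
      obtain ⟨b, rfl⟩ := Ideal.Quotient.mk_surjective b
      rw [AlgHom.toLinearMap_apply, AlgHom.toLinearMap_apply, TB_mk, q_mk, q_mk, hTσ]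
      change _ = Ideal.Quotient.mk D.If (D.σ (constantCoeff b))
      congr 1)
  rw [h2, h1, map_natCast, hE2]

end Dat

end Pool.Agent.X192.EQ
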