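import Pool.Agent.X192.EQ.Loc

set_option autoImplicit false
set_option linter.unusedSectionVars false

/-!
# The reduction maps and freeness
-/

namespace Pool.Agent.X192.EQ

open Module PowerSeries IsLocalRing

theorem algebraMap_PS_apply {K R : Type} [Field K] [CommRing R] [Algebra K R] (o : PowerSeries K) :
    algebraMap (PowerSeries K) (PowerSeries R) o = PowerSeries.map (algebraMap K R) o := rfl

theorem smul_mk_eq {K R : Type} [Field K] [CommRing R] [Algebra K R]
    (I : Ideal (PowerSeries R)) (o : PowerSeries K) (g : PowerSeries R) :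
    o • (Ideal.Quotient.mk I g) = Ideal.Quotient.mk I (PowerSeries.map (algebraMap K R) o * g) := by
  rw [← algebraMap_PS_apply, ← Algebra.smul_def]
  rfl

theorem smul_mk_eq' {K R : Type} [Field K] [CommRing R] [Algebra K R]
    (I : Ideal R) (o : K) (g : R) :
    o • (Ideal.Quotient.mk I g) = Ideal.Quotient.mk I (algebraMap K R o * g) := by
  rw [← Algebra.smul_def]
  rfl

/-- reduction of quotients by ideals -/
noncomputable def redMap {K R : Type} [Field K] [CommRing R] [Algebra K R]
    (I : Ideal (PowerSeries R)) (J : Ideal R) (h : I ≤ J.comap (constantCoeff (R := R))) :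
    (PowerSeries R ⧸ I) →ₛₗ[(constantCoeff : PowerSeries K →+* K)] (R ⧸ J) where
  toFun := Ideal.quotientMap J (constantCoeff (R := R)) h
  map_add' := map_add _
  map_smul' := by
    intro o b
    obtain ⟨b, rfl⟩ := Ideal.Quotient.mk_surjective b
    rw [smul_mk_eq, Ideal.quotientMap_mk, Ideal.quotientMap_mk, smul_mk_eq']
    rw [map_mul, ← coeff_zero_eq_constantCoeff_apply, coeff_map, coeff_zero_eq_constantCoeff_apply]

theorem redMap_mk {K R : Type} [Field K] [CommRing R] [Algebra K R]
    (I : Ideal (PowerSeries R)) (J : Ideal R) (h : I ≤ J.comap (constantCoeff (R := R)))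
    (g : PowerSeries R) :
    redMap (K := K) I J h (Ideal.Quotient.mk I g) = Ideal.Quotient.mk J (constantCoeff g) := by
  exact Ideal.quotientMap_mk (H := h)

theorem redMap_surjective {K R : Type} [Field K] [CommRing R] [Algebra K R]
    (I : Ideal (PowerSeries R)) (J : Ideal R) (h : I ≤ J.comap (constantCoeff (R := R))) :
    Function.Surjective (redMap (K := K) I J h) := by
  intro y
  obtain ⟨y, rfl⟩ := Ideal.Quotient.mk_surjective y
  exact ⟨Ideal.Quotient.mk I (C y), by rw [redMap_mk, constantCoeff_C]⟩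

theorem X_smul_mk {K R : Type} [Field K] [CommRing R] [Algebra K R]
    (I : Ideal (PowerSeries R)) (g : PowerSeries R) :
    (X : PowerSeries K) • (Ideal.Quotient.mk I g) = Ideal.Quotient.mk I (X * g) := by
  rw [smul_mk_eq, PowerSeries.map_X]

theorem redMap_ker {K R : Type} [Field K] [CommRing R] [Algebra K R]
    (I : Ideal (PowerSeries R)) (J : Ideal R) (h : I ≤ J.comap (constantCoeff (R := R)))
    (hJ : ∀ r ∈ J, ∃ g, (C r + X * g : PowerSeries R) ∈ I) (y : PowerSeries R ⧸ I)
    (hy : redMap (K := K) I J h y = 0) : ∃ y', y = (X : PowerSeries K) • y' := by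
  obtain ⟨y, rfl⟩ := Ideal.Quotient.mk_surjective y
  rw [redMap_mk, Ideal.Quotient.eq_zero_iff_mem] at hy
  obtain ⟨g, hg⟩ := Dat.mem_of_constantCoeff J I hJ y hy
  refine ⟨Ideal.Quotient.mk I g, ?_⟩
  rw [X_smul_mk, Ideal.Quotient.eq]
  exact hg

/-- `s`-adic separatedness of a quotient of `R⟦s⟧` -/
theorem isHausdorff {K R : Type} [Field K] [CommRing R] [Algebra K R] [IsLocalRing R]
    [IsNoetherianRing R] (I : Ideal (PowerSeries R)) :
    IsHausdorff (Ideal.span {(X : PowerSeries K)}) (PowerSeries R ⧸ I) := by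
  constructor
  intro y hy
  have h0 := Ideal.iInf_pow_smul_eq_bot_of_isLocalRing (M := (PowerSeries R ⧸ I))
    (Ideal.span {(X : PowerSeries R)}) (by
      intro h
      have h1 : Ideal.span {(X : PowerSeries R)} ≤ maximalIdeal (PowerSeries R) := by
        rw [Ideal.span_le]
        simpa using Dat.X_mem_max (R := R)
      rw [h] at h1
      exact (maximalIdeal.isMaximal (PowerSeries R)).ne_top (top_le_iff.1 h1))
  have h1 : y ∈ (⨅ i : ℕ, (Ideal.span {(X : PowerSeries R)}) ^ i •
      (⊤ : Submodule (PowerSeries R) (PowerSeries R ⧸ I))) := by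
    rw [Submodule.mem_iInf]
    intro k
    have h2 := hy k
    rw [SModEq.zero, mem_span_pow_smul_top] at h2
    rw [mem_span_pow_smul_top]
    obtain ⟨y', rfl⟩ := h2
    refine ⟨y', ?_⟩
    obtain ⟨y', rfl⟩ := Ideal.Quotient.mk_surjective y'
    have key : ∀ k (g : PowerSeries R), (X : PowerSeries K) ^ k • (Ideal.Quotient.mk I g) =
        Ideal.Quotient.mk I (X ^ k * g) := by
      intro k
      induction k with
      | zero => intro g; simp
      | succ k ih => intro g; rw [pow_succ', mul_smul, ih, X_smul_mk, ← mul_assoc, ← pow_succ']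
    rw [key]
    rfl
  rw [h0] at h1
  simpa using h1

end Pool.Agent.X192.EQ
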