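import Mathlib

set_option autoImplicit false

/-!
# The action of scalar matrices on vectors and the projector onto the moving part
-/

namespace Pool.Agent.X192.EQ

open Finset

variable {K : Type*} [Field K] {R : Type*} [CommRing R] [Algebra K R] {n : ℕ}

/-- the action of a scalar matrix on a vector -/
def act (Q : Matrix (Fin n) (Fin n) K) (v : Fin n → R) : Fin n → R :=
  fun i => ∑ j, Q i j • v j

theorem act_mul (Q Q' : Matrix (Fin n) (Fin n) K) (v : Fin n → R) :
    act (Q * Q') v = act Q (act Q' v) := by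
  funext i
  simp only [act, Matrix.mul_apply, sum_smul, smul_sum, smul_smul]
  rw [sum_comm]

theorem act_one (v : Fin n → R) : act (1 : Matrix (Fin n) (Fin n) K) v = v := by
  funext i
  simp [act, Matrix.one_apply]

theorem act_sub (Q Q' : Matrix (Fin n) (Fin n) K) (v : Fin n → R) :
    act (Q - Q') v = act Q v - act Q' v := by
  funext i
  simp [act, sub_smul, sum_sub_distrib]

theorem act_mem (Q : Matrix (Fin n) (Fin n) K) (v : Fin n → R) (I : Ideal R)
    (h : ∀ i, v i ∈ I) (i : Fin n) : act Q v i ∈ I := by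
  refine I.sum_mem fun j _ => ?_
  rw [Algebra.smul_def]
  exact I.mul_mem_left _ (h j)

theorem map_act {R' : Type*} [CommRing R'] [Algebra K R'] (σ : R →ₐ[K] R')
    (Q : Matrix (Fin n) (Fin n) K) (v : Fin n → R) (i : Fin n) :
    σ (act Q v i) = act Q (fun j => σ (v j)) i := by
  simp [act]

/-- the projector onto the moving part -/
theorem exists_proj [CharZero K] (M : Matrix (Fin n) (Fin n) K) (d : ℕ) (hd : 0 < d)
    (hM : M ^ d = 1) : ∃ Q N : Matrix (Fin n) (Fin n) K,
      Q = N * (M - 1) ∧ (M - 1) * Q = M - 1 ∧ Q * Q = Q ∧ Q * M = M * Q := by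
  have hd' : (d : K) ≠ 0 := by exact_mod_cast hd.ne'
  let P : Matrix (Fin n) (Fin n) K := (d : K)⁻¹ • ∑ k ∈ range d, M ^ k
  let N : Matrix (Fin n) (Fin n) K := -((d : K)⁻¹ • ∑ k ∈ range d, ∑ j ∈ range k, M ^ j)
  have h1 : 1 - P = N * (M - 1) := by
    have e1 : N * (M - 1) = -((d : K)⁻¹ • ∑ k ∈ range d, (M ^ k - 1)) := by
      simp only [N, neg_mul, smul_mul_assoc]
      rw [sum_mul]
      simp only [geom_sum_mul]
    rw [e1, sum_sub_distrib, smul_sub, neg_sub]
    simp only [P, sum_const, card_range]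
    rw [← Nat.cast_smul_eq_nsmul K, smul_smul, inv_mul_cancel₀ hd', one_smul]
  have h2 : (M - 1) * P = 0 := by
    simp only [P, mul_smul_comm, mul_geom_sum, hM, sub_self, smul_zero]
  have h3 : (1 - P) * P = 0 := by rw [h1, mul_assoc, h2, mul_zero]
  have h4 : Commute P M := by
    refine Commute.smul_left ?_ _
    refine Commute.sum_left _ _ _ fun k _ => ?_
    exact (Commute.refl M).pow_left k
  refine ⟨1 - P, N, h1, ?_, ?_, ?_⟩
  · rw [mul_sub, h2, mul_one, sub_zero]
  · rw [mul_sub, h3, mul_one, sub_zero]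
  · rw [sub_mul, mul_sub, one_mul, mul_one, h4.eq]

end Pool.Agent.X192.EQ
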