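import Pool.Agent.TH416.CI.Choice

set_option autoImplicit false

/-!
# Systems of parameters in a power series ring are regular sequences
-/

namespace Pool.Agent.X192.EQ

open RingTheory.Sequence IsLocalRing Pointwise

universe u

/-- there is a weakly regular sequence of length `k` in the maximal ideal -/
def HasReg (A : Type u) [CommRing A] [IsLocalRing A] (k : ℕ) : Prop :=
  ∃ rs : List A, rs.length = k ∧ (∀ r ∈ rs, r ∈ maximalIdeal A) ∧ IsWeaklyRegular A rs

theorem dim_le_length {A : Type u} [CommRing A] [IsLocalRing A] [IsNoetherianRing A]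
    (P : Ideal A) [hP : P.IsPrime] (I : Ideal A) (hs : List A) (hhs : ∀ x ∈ hs, x ∈ maximalIdeal A)
    (hI : I ≤ P ⊔ Ideal.ofList hs) (hdim : ringKrullDim (A ⧸ I) ≤ 0) :
    ringKrullDim (A ⧸ P) ≤ hs.length := by
  classical
  have hloc : IsLocalRing (A ⧸ P) :=
    IsLocalRing.of_surjective' (Ideal.Quotient.mk P) Ideal.Quotient.mk_surjective
  have hle : P ≤ maximalIdeal A := IsLocalRing.le_maximalIdeal hP.ne_top
  let s : Finset (A ⧸ P) := (hs.map (Ideal.Quotient.mk P)).toFinset
  have hs0 : ∀ x, x ∈ s ↔ ∃ y ∈ hs, Ideal.Quotient.mk P y = x := by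
    intro x
    simp [s]
  have hs1 : (s : Set (A ⧸ P)) ⊆ Ring.jacobson (A ⧸ P) := by
    rw [IsLocalRing.ringJacobson_eq_maximalIdeal]
    intro x hx
    rw [Finset.mem_coe, hs0] at hx
    obtain ⟨y, hy, rfl⟩ := hx
    have hy' := hhs y hy
    rw [SetLike.mem_coe, IsLocalRing.mem_maximalIdeal, mem_nonunits_iff]
    intro hu
    obtain ⟨z, hz⟩ := hu.exists_right_inv
    obtain ⟨z, rfl⟩ := Ideal.Quotient.mk_surjective z
    rw [← map_mul, ← map_one (Ideal.Quotient.mk P), Ideal.Quotient.eq] at hz
    have h1 : (1 : A) ∈ maximalIdeal A := by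
      have := Ideal.sub_mem _ (Ideal.mul_mem_right z _ hy') (hle hz)
      simpa using this
    exact (Ideal.ne_top_iff_one _).1 (maximalIdeal.isMaximal A).ne_top h1
  have h1 := ringKrullDim_le_ringKrullDim_quotient_add_card s hs1
  have h2 : ringKrullDim ((A ⧸ P) ⧸ Ideal.span (s : Set (A ⧸ P))) ≤ ringKrullDim (A ⧸ I) := by
    have hk : ∀ a ∈ I, ((Ideal.Quotient.mk (Ideal.span (s : Set (A ⧸ P)))).comp
        (Ideal.Quotient.mk P)) a = 0 := by
      intro a ha
      have : P ⊔ Ideal.ofList hs ≤ RingHom.ker ((Ideal.Quotient.mk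
          (Ideal.span (s : Set (A ⧸ P)))).comp (Ideal.Quotient.mk P)) := by
        refine sup_le ?_ ?_
        · intro x hx
          rw [RingHom.mem_ker, RingHom.comp_apply, Ideal.Quotient.eq_zero_iff_mem.2 hx, map_zero]
        · rw [Ideal.ofList, Ideal.span_le]
          intro x hx
          rw [SetLike.mem_coe, RingHom.mem_ker, RingHom.comp_apply]
          exact Ideal.Quotient.eq_zero_iff_mem.2 (Ideal.subset_span ((hs0 _).2 ⟨x, hx, rfl⟩))
      exact this (hI ha)
    refine ringKrullDim_le_of_surjective (Ideal.Quotient.lift I _ hk) ?_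
    refine Ideal.Quotient.lift_surjective_of_surjective I hk ?_
    rw [RingHom.coe_comp]
    exact Ideal.Quotient.mk_surjective.comp Ideal.Quotient.mk_surjective
  have h3 : s.card ≤ hs.length := by
    refine (List.toFinset_card_le _).trans ?_
    rw [List.length_map]
  calc ringKrullDim (A ⧸ P) ≤ ringKrullDim ((A ⧸ P) ⧸ Ideal.span (s : Set (A ⧸ P))) + s.card := h1
    _ ≤ 0 + (hs.length : WithBot ℕ∞) := by
        refine add_le_add (h2.trans hdim) ?_
        exact_mod_cast h3
    _ = hs.length := by rw [zero_add]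

theorem sop {A : Type u} [CommRing A] [IsLocalRing A] [IsNoetherianRing A] (N : ℕ)
    (h : HasReg A N) (gs : List A) (hg : ∀ g ∈ gs, g ∈ maximalIdeal A) (hlen : gs.length = N)
    (hdim : ringKrullDim (A ⧸ Ideal.ofList gs) ≤ 0) : IsWeaklyRegular A gs := by
  have key : ∀ k ≤ N, IsWeaklyRegular A (gs.take k) := by
    intro k
    induction k with
    | zero => intro _; simp
    | succ k ih =>
      intro hk
      have hk' : k < gs.length := by omega
      rw [← List.take_append_getElem hk', isWeaklyRegular_append_iff, isWeaklyRegular_singleton_iff]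
      refine ⟨ih (by omega), ?_⟩
      by_contra hcon
      have h3 : gs[k] ∈ ⋃ p ∈ associatedPrimes A
          (A ⧸ (Ideal.ofList (gs.take k) • (⊤ : Submodule A A))), (p : Set A) := by
        rw [biUnion_associatedPrimes_eq_compl_regular]
        exact hcon
      simp only [Set.mem_iUnion] at h3
      obtain ⟨P, hP, hmem⟩ := h3
      obtain ⟨rs, hrs1, hrs2, hrs3⟩ := h
      have hkl : (gs.take k).length = k := by simp; omega
      have h4 := TH416.CI.ass_dim_after (gs.take k) (fun f hf => hg f (List.mem_of_mem_take hf)) A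
        (N - k) ⟨rs, by rw [hrs1, hkl]; omega, hrs2, hrs3⟩ (ih (by omega)) P hP
      have hPp : P.IsPrime := hP.isPrime
      have h5 := dim_le_length P (Ideal.ofList gs) (gs.drop (k + 1))
        (fun x hx => hg x (List.mem_of_mem_drop hx)) (by
          rw [Ideal.ofList, Ideal.span_le]
          intro x hx
          have hx' : x ∈ gs := hx
          rw [← List.take_append_drop (k + 1) gs, List.mem_append,
            ← List.take_append_getElem hk', List.mem_append, List.mem_singleton] at hx'
          rcases hx' with (hx' | rfl) | hx'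
          · exact Ideal.mem_sup_left (TH416.CI.ofList_le_of_ass _ P hP x hx')
          · exact Ideal.mem_sup_left hmem
          · exact Ideal.mem_sup_right (Ideal.subset_span hx')) hdim
      have h6 := h4.trans h5
      have h7 : N - k ≤ (gs.drop (k + 1)).length := by exact_mod_cast h6
      rw [List.length_drop] at h7
      omega
  have := key N le_rfl
  rwa [List.take_of_length_le (by omega)] at this

end Pool.Agent.X192.EQ
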